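import Pool.Agent.K1H58.FG.Sem2
import Pool.Agent.K1H58.FG.TwoOver
import Pool.Agent.K1H58.FG.RunL
import Pool.Agent.K1H58.FG.RunR

/-!
# The value of Fox and Geese is `2 + 1 / on` (MP_ab3a84_co)

The starting position of Fox and Geese (geese on a1, c1, e1, g1, fox on d8) equals the stopper
`G = {2 | G}`, that is `2 + 1 / on`. Equality is that of the theory of loopy games: the
same outcome in every disjunctive sum with a loopy game.

The second player survives on the difference with `G`. The machine computation: the positions of
the difference are put in tables (one number for every quadruple of ranks of the geese; one bit for
the columns of the geese, the square of the fox and the position of the other component), the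
tables of the positions in which a player survives are computed recursively, starting with the
geese on the last rank, and evaluated by the kernel.
-/

set_option autoImplicit false

namespace Pool.Agent.Results.MP_ab3a84_co.TwoPlusOneOn

open K1H58.FG K1H58.KR

theorem run_left : mem g (uOf (vFr fun _ => 0) (WWr 29 fun _ => 0)) st := by
  unfold mem vFr WWr
  exact runL

theorem run_right : mem g (SSr 29 fun _ => 0) st := by
  unfold mem SSr
  exact runR

/-- **The value of Fox and Geese.** The starting position of Fox and Geese is equal to the stopper
`G = {2 | G}`, which is equal to the sum of `2` and `1 / on = {0 | 1 / on}`. -/
theorem result : foxAndGeese.IsStopper ∧ twoOver.IsStopper ∧ Equal foxAndGeese twoOver ∧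
    Equal twoOver (two.add overOn) :=
  ⟨fg_stopper, twoOver_stopper, equal_of fg_stopper twoOver_stopper
    (left_survives rl_start run_left) (right_survives rl_start run_right), twoOver_eq⟩

end Pool.Agent.Results.MP_ab3a84_co.TwoPlusOneOn
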